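import Mathlib

namespace Pool.Agent.Results.MP_7b4a8e_an.Three

open Real

theorem result : ∃ (A p : ℝ) (k : ℕ) (x : ℕ → ℝ), 0 < A ∧ 0 < p ∧ (∀ n, 0 < x n) ∧
    (∀ n, x (n + k + 1) = A / x (n + k) ^ 2 + 1 / x n ^ p) ∧
    IsLeast {N : ℕ | 1 ≤ N ∧ ∀ n, x (n + N) = x n} 3 := by
  set p : ℝ := 1 + logb 2 (5 / 4) with hp
  have hl : 0 < logb 2 (5 / 4 : ℝ) := logb_pos (by norm_num) (by norm_num)
  have hp0 : 0 < p := by linarith
  set a : ℝ := 3 ^ (1 / (p + 1)) with ha
  have ha0 : 0 < a := by positivity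
  have h2 : (2 : ℝ) ^ p = 5 / 2 := by
    rw [hp, rpow_add (by norm_num), rpow_one, rpow_logb (by norm_num) (by norm_num) (by norm_num)]
    norm_num
  have h3 : a ^ p * a = 3 := by
    rw [← rpow_add_one ha0.ne', ha, ← rpow_mul (by norm_num), one_div_mul_cancel (by linarith),
      rpow_one]
  have h4 : a ^ p = 3 / a := by rw [eq_div_iff ha0.ne', h3]
  have h5 : (a / 2) ^ p = 6 / (5 * a) := by
    rw [div_rpow ha0.le (by norm_num), h2, h4]; field_simp; norm_num
  refine ⟨a ^ 3 / 6, p, 1, fun n => if n % 3 = 2 then a / 2 else a, by positivity, hp0, ?_, ?_,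
    ⟨by norm_num, fun n => by simp⟩, ?_⟩
  · intro n; simp only []; split_ifs <;> positivity
  · intro n
    have : n % 3 = 0 ∨ n % 3 = 1 ∨ n % 3 = 2 := by omega
    rcases this with h | h | h
    · simp only []
      rw [if_pos (by omega), if_neg (by omega), if_neg (by omega), h4]; field_simp; norm_num
    · simp only []
      rw [if_neg (by omega), if_pos (by omega), if_neg (by omega), h4]; field_simp; norm_num
    · simp only []
      rw [if_neg (by omega), if_neg (by omega), if_pos (by omega), h5]; field_simp; norm_num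
  · rintro N ⟨h1, h⟩
    by_contra hN
    have : N = 1 ∨ N = 2 := by omega
    rcases this with rfl | rfl
    · have := h 1; norm_num at this; linarith
    · have := h 0; norm_num at this; linarith

end Pool.Agent.Results.MP_7b4a8e_an.Three
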